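import Mathlib
import Pool.Agent.Q81.StubFour

/-!
# MP_9ca6a9_ag : a gap in the set of stubborn degrees

A totally real irreducible curve `X ⊂ ℙ³` (of degree `5`, rational with two complex conjugate
nodes) for which `2` is a stubborn degree and `4` is not.
-/

set_option autoImplicit false

open Polynomial

namespace Pool.Agent.Results.MP_9ca6a9_ag.DegreeGap

open Pool.Agent.Q81.StubAlg Pool.Agent.Q81.StubFactor Pool.Agent.Q81.StubFour

section defs

variable {n : ℕ}

/-- The real points (in the affine cone) of the projective variety with ideal `I`. -/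
def RealCone (I : Ideal (MvPolynomial (Fin n) ℝ)) : Set (Fin n → ℝ) :=
  {x | ∀ f ∈ I, MvPolynomial.eval x f = 0}

/-- `I` is the homogeneous vanishing ideal of a (nonempty) totally real projective variety
`X ⊂ ℙ^(n-1)`: it is homogeneous, and it consists of all the polynomials vanishing at the real
points, i.e. the real points are Zariski dense. -/
structure IsTotallyReal (I : Ideal (MvPolynomial (Fin n) ℝ)) : Prop where
  homogeneous : ∀ f ∈ I, ∀ k : ℕ, MvPolynomial.homogeneousComponent k f ∈ I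
  dense : ∀ f : MvPolynomial (Fin n) ℝ, (∀ x ∈ RealCone I, MvPolynomial.eval x f = 0) → f ∈ I
  nonempty : ∃ x ∈ RealCone I, x ≠ 0

/-- the class of `F` is nonnegative on `X` -/
def IsNonneg (I : Ideal (MvPolynomial (Fin n) ℝ)) (F : MvPolynomial (Fin n) ℝ) : Prop :=
  ∀ x ∈ RealCone I, 0 ≤ MvPolynomial.eval x F

/-- the class of `F` is a sum of squares of elements of `ℝ[X]_j` -/
def IsSOS (I : Ideal (MvPolynomial (Fin n) ℝ)) (j : ℕ) (F : MvPolynomial (Fin n) ℝ) : Prop :=
  ∃ (N : ℕ) (G : Fin N → MvPolynomial (Fin n) ℝ),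
    (∀ i, (G i).IsHomogeneous j) ∧ F - ∑ i, G i ^ 2 ∈ I

/-- the class of `F` in `ℝ[X]_{2k}` is a stubborn form -/
def IsStubborn (I : Ideal (MvPolynomial (Fin n) ℝ)) (k : ℕ) (F : MvPolynomial (Fin n) ℝ) : Prop :=
  F.IsHomogeneous (2 * k) ∧ IsNonneg I F ∧ ∀ m : ℕ, Odd m → ¬ IsSOS I (k * m) (F ^ m)

/-- `2k` is a stubborn degree of `X` -/
def IsStubbornDegree (I : Ideal (MvPolynomial (Fin n) ℝ)) (k : ℕ) : Prop :=
  ∃ F : MvPolynomial (Fin n) ℝ, IsStubborn I k F

end defs

/-- the map defining the curve -/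
noncomputable def Ψ : MvPolynomial (Fin 4) ℝ →ₐ[ℝ] ℝ[X][X] :=
  MvPolynomial.aeval (fun i => (X : ℝ[X][X]) * C (φ i))

/-- the ideal of the curve -/
noncomputable def J : Ideal (MvPolynomial (Fin 4) ℝ) := RingHom.ker Ψ.toRingHom

lemma mem_J (f : MvPolynomial (Fin 4) ℝ) : f ∈ J ↔ Ψ f = 0 := Iff.rfl

lemma J_prime : J.IsPrime := RingHom.ker_isPrime _

lemma aeval_C_φ (f : MvPolynomial (Fin 4) ℝ) :
    MvPolynomial.aeval (fun i => (C (φ i) : ℝ[X][X])) f = C (pull f) := by
  have h := MvPolynomial.comp_aeval_apply (f := φ) (IsScalarTower.toAlgHom ℝ ℝ[X] ℝ[X][X]) f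
  unfold pull
  exact h.symm

lemma Ψ_homog {k : ℕ} {G : MvPolynomial (Fin 4) ℝ} (hG : G.IsHomogeneous k) :
    Ψ G = X ^ k * C (pull G) := by
  unfold Ψ
  rw [aeval_homog hG, aeval_C_φ]

lemma mem_J_homog {k : ℕ} {G : MvPolynomial (Fin 4) ℝ} (hG : G.IsHomogeneous k) :
    G ∈ J ↔ pull G = 0 := by
  rw [mem_J, Ψ_homog hG, mul_eq_zero, C_eq_zero]
  constructor
  · rintro (h | h)
    · exact absurd h (pow_ne_zero k X_ne_zero)
    · exact h
  · exact Or.inr

lemma eval_Ψ (f : MvPolynomial (Fin 4) ℝ) (c t : ℝ) :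
    ((Ψ f).eval (C c)).eval t = MvPolynomial.eval (fun i => c * (φ i).eval t) f := by
  induction f using MvPolynomial.induction_on with
  | C a =>
    have : Ψ (MvPolynomial.C a) = C (C a) := by
      unfold Ψ
      rw [MvPolynomial.aeval_C]
      rfl
    rw [this, eval_C, eval_C, MvPolynomial.eval_C]
  | add p q hp hq => rw [map_add, eval_add, eval_add, hp, hq, map_add]
  | mul_X p i hp =>
    have : Ψ (MvPolynomial.X i) = X * C (φ i) := by
      unfold Ψ
      rw [MvPolynomial.aeval_X]
    rw [map_mul, eval_mul, eval_mul, hp, map_mul, this, MvPolynomial.eval_X]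
    simp only [eval_mul, eval_X, eval_C]

lemma mem_J_iff (f : MvPolynomial (Fin 4) ℝ) :
    f ∈ J ↔ ∀ c t : ℝ, MvPolynomial.eval (fun i => c * (φ i).eval t) f = 0 := by
  constructor
  · intro h c t
    rw [← eval_Ψ, (mem_J f).mp h]
    simp
  · intro h
    rw [mem_J]
    apply Polynomial.eq_zero_of_infinite_isRoot
    apply Set.Infinite.mono (s := Set.range (fun c : ℝ => (C c : ℝ[X])))
    · rintro _ ⟨c, rfl⟩
      change (Ψ f).eval (C c) = 0
      apply Polynomial.funext
      intro t
      rw [eval_Ψ, h c t, eval_zero]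
    · exact Set.infinite_range_of_injective C_injective

lemma pull_eq_zero_of_mem {f : MvPolynomial (Fin 4) ℝ} (h : f ∈ J) : pull f = 0 := by
  apply Polynomial.funext
  intro t
  rw [eval_pull, eval_zero]
  have := (mem_J_iff f).mp h 1 t
  simpa using this

lemma J_homogeneous (f : MvPolynomial (Fin 4) ℝ) (hf : f ∈ J) (k : ℕ) :
    MvPolynomial.homogeneousComponent k f ∈ J := by
  rw [mem_J_homog (MvPolynomial.homogeneousComponent_isHomogeneous k f)]
  have h1 : Ψ f = 0 := hf
  have h2 : Ψ f = ∑ j ∈ Finset.range (f.totalDegree + 1),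
      X ^ j * C (pull (MvPolynomial.homogeneousComponent j f)) := by
    conv_lhs => rw [← MvPolynomial.sum_homogeneousComponent f]
    rw [map_sum]
    exact Finset.sum_congr rfl fun j _ =>
      Ψ_homog (MvPolynomial.homogeneousComponent_isHomogeneous j f)
  by_cases hk : k < f.totalDegree + 1
  · have h3 := congrArg (fun P : ℝ[X][X] => P.coeff k) h2
    rw [h1, coeff_zero, finsetSum_coeff, Finset.sum_eq_single k] at h3
    · rw [mul_comm, coeff_C_mul_X_pow, if_pos rfl] at h3
      exact h3.symm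
    · intro j _ hj
      rw [mul_comm, coeff_C_mul_X_pow, if_neg (Ne.symm hj)]
    · intro h
      exact absurd (Finset.mem_range.mpr hk) h
  · rw [MvPolynomial.homogeneousComponent_eq_zero _ _ (by omega)]
    unfold pull
    rw [map_zero]

lemma mem_cone (c t : ℝ) : (fun i => c * (φ i).eval t) ∈ RealCone J :=
  fun f hf => (mem_J_iff f).mp hf c t

lemma mem_cone' (t : ℝ) : (fun i => (φ i).eval t) ∈ RealCone J := by
  have := mem_cone 1 t
  simpa using this

lemma J_totallyReal : IsTotallyReal J where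
  homogeneous := J_homogeneous
  dense := fun f hf => (mem_J_iff f).mpr fun c t => hf _ (mem_cone c t)
  nonempty := by
    refine ⟨_, mem_cone' 0, fun h => ?_⟩
    have h0 := congrFun h 0
    change p0.eval 0 = 0 at h0
    unfold p0 at h0
    norm_num at h0

/-- a form of degree `2` pulling back to `1` -/
lemma exists_one : Lift 2 1 := full (le_refl 2) (by simp) (by simp)

lemma nonneg_one {F : MvPolynomial (Fin 4) ℝ} (hF : F.IsHomogeneous 2) (hF1 : pull F = 1) :
    IsNonneg J F := by
  intro y hy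
  by_contra hneg
  push Not at hneg
  set G : MvPolynomial (Fin 4) ℝ := MvPolynomial.X 0 * MvPolynomial.X 1 with hG
  have hGh : G.IsHomogeneous 2 :=
    (MvPolynomial.isHomogeneous_X ℝ 0).mul (MvPolynomial.isHomogeneous_X ℝ 1)
  set U : MvPolynomial (Fin 4) ℝ := G ^ 2 + MvPolynomial.C (2310 ^ 2) * F ^ 2 with hU
  have hUh : U.IsHomogeneous 4 := (hGh.pow 2).add ((hF.pow 2).C_mul _)
  have hpU : pull U = (p0 * p1) ^ 2 + C (2310 ^ 2) := by
    rw [hU, hG]
    unfold pull at hF1 ⊢
    simp only [map_add, map_mul, map_pow, MvPolynomial.aeval_X, MvPolynomial.aeval_C, hF1]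
    change (p0 * p1) ^ 2 + _ = _
    rw [one_pow, mul_one]
    rfl
  have hz := φz
  have hz0 : aeval z p0 = 21 := congrFun hz 0
  have hz1 : aeval z p1 = 110 * Complex.I := congrFun hz 1
  have hUz : aeval z (pull U) = 0 := by
    rw [hpU, map_add, map_pow, map_mul, hz0, hz1, aeval_C]
    have := Complex.I_sq
    have e : (algebraMap ℝ ℂ) (2310 ^ 2) = 2310 ^ 2 := by
      rw [map_pow]
      norm_num
    rw [e]
    linear_combination (2310 ^ 2) * this
  have hUw : aeval w (pull U) = 0 := by
    rw [pull_twist hUh, hUz, mul_zero]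
  have hU5 : Lift 5 (pull U) := by
    apply full (by norm_num)
    · have := pull_natDegree hUh
      omega
    · rw [hUw, hUz, mul_zero]
  obtain ⟨U', hU'h, hU'⟩ := hU5
  have hmem : F * U ^ 2 - U' ^ 2 ∈ J := by
    have hh : (F * U ^ 2 - U' ^ 2).IsHomogeneous 10 := (hF.mul (hUh.pow 2)).sub (hU'h.pow 2)
    rw [mem_J_homog hh]
    unfold pull at *
    rw [map_sub, map_mul, map_pow, map_pow, hF1, hU']
    ring
  have h1 := hy _ hmem
  rw [map_sub, map_mul, map_pow, map_pow] at h1
  have h2 : MvPolynomial.eval y U = 0 := by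
    by_contra hne
    have : 0 < MvPolynomial.eval y U ^ 2 := by positivity
    nlinarith [sq_nonneg (MvPolynomial.eval y U')]
  have e3 : MvPolynomial.eval y U = MvPolynomial.eval y G ^ 2 +
      2310 ^ 2 * MvPolynomial.eval y F ^ 2 := by
    rw [hU]
    simp only [map_add, map_mul, map_pow, MvPolynomial.eval_C]
  rw [e3] at h2
  nlinarith [sq_nonneg (MvPolynomial.eval y G), mul_pos_of_neg_of_neg hneg hneg]

lemma natDegree_of_sum_sq {N : ℕ} {g : Fin N → ℝ[X]} (h : (1 : ℝ[X]) = ∑ i, g i ^ 2) (i : Fin N) :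
    ∃ a : ℝ, g i = C a := by
  have hb : ∀ t : ℝ, |(g i).eval t| ≤ 1 := by
    intro t
    have h1 := congrArg (Polynomial.eval t) h
    rw [eval_one, eval_finsetSum] at h1
    have h2 : (g i ^ 2).eval t ≤ ∑ j, (g j ^ 2).eval t :=
      Finset.single_le_sum (f := fun j => (g j ^ 2).eval t)
        (fun j _ => by rw [eval_pow]; positivity) (Finset.mem_univ i)
    rw [← h1, eval_pow] at h2
    exact (sq_le_one_iff_abs_le_one _).mp h2
  have hdeg : (g i).degree ≤ 0 := by
    rw [← Polynomial.isBoundedUnder_abs_atTop_iff]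
    exact ⟨1, Filter.eventually_map.mpr (Filter.Eventually.of_forall hb)⟩
  exact ⟨_, eq_C_of_degree_le_zero hdeg⟩

lemma stubborn_one : IsStubbornDegree J 1 := by
  obtain ⟨F, hF, hF1⟩ := exists_one
  refine ⟨F, hF, nonneg_one hF hF1, ?_⟩
  rintro m hm ⟨N, G, hG, hmem⟩
  have h1 := pull_eq_zero_of_mem hmem
  have h2 : (1 : ℝ[X]) = ∑ i, pull (G i) ^ 2 := by
    unfold pull at *
    rw [map_sub, map_pow, hF1, one_pow, map_sum] at h1
    simp only [map_pow] at h1
    exact sub_eq_zero.mp h1
  have h3 : ∀ i, pull (G i) = 0 := by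
    intro i
    obtain ⟨a, ha⟩ := natDegree_of_sum_sq h2 i
    have htw := pull_twist (hG i)
    rw [one_mul, hm.neg_one_pow, ha, aeval_C, aeval_C] at htw
    have h4 : (algebraMap ℝ ℂ a) = 0 := by linear_combination (1 / 2 : ℂ) * htw
    rw [ha, (map_eq_zero (algebraMap ℝ ℂ)).mp h4, C_0]
  simp only [h3] at h2
  simp at h2

lemma sq3_degree {h g1 g2 g3 : ℝ[X]} (e : h = g1 ^ 2 + g2 ^ 2 + g3 ^ 2) :
    2 * g1.natDegree ≤ h.natDegree ∧ 2 * g2.natDegree ≤ h.natDegree ∧
      2 * g3.natDegree ≤ h.natDegree := by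
  set d := max (max g1.natDegree g2.natDegree) g3.natDegree with hd
  have l1 : g1.natDegree ≤ d := (le_max_left _ _).trans (le_max_left _ _)
  have l2 : g2.natDegree ≤ d := (le_max_right _ _).trans (le_max_left _ _)
  have l3 : g3.natDegree ≤ d := le_max_right _ _
  have hmain : 2 * d ≤ h.natDegree := by
    by_cases hd0 : d = 0
    · omega
    have hc : h.coeff (2 * d) = g1.coeff d ^ 2 + g2.coeff d ^ 2 + g3.coeff d ^ 2 := by
      rw [e, coeff_add, coeff_add, coeff_pow_of_natDegree_le l1, coeff_pow_of_natDegree_le l2,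
        coeff_pow_of_natDegree_le l3]
    apply le_natDegree_of_ne_zero
    rw [hc]
    have hne : ∀ g : ℝ[X], g.natDegree = d → g.coeff d ≠ 0 := by
      intro g hg h0
      rw [← hg] at h0
      have : g = 0 := leadingCoeff_eq_zero.mp h0
      rw [this, natDegree_zero] at hg
      exact hd0 hg.symm
    have hcase : g1.natDegree = d ∨ g2.natDegree = d ∨ g3.natDegree = d := by
      omega
    rcases hcase with hh | hh | hh
    · have := hne _ hh
      positivity
    · have := hne _ hh
      positivity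
    · have := hne _ hh
      positivity
  omega

lemma not_stubborn_two : ¬ IsStubbornDegree J 2 := by
  rintro ⟨F, hF, hnn, hst⟩
  have hdeg : (pull F).natDegree ≤ 20 := by
    have := pull_natDegree hF
    omega
  have htw : aeval w (pull F) = aeval z (pull F) := by
    have := pull_twist hF
    rw [this]
    norm_num
  have hpos : ∀ t, 0 ≤ (pull F).eval t := by
    intro t
    rw [eval_pull]
    exact hnn _ (mem_cone' t)
  by_cases hf0 : pull F = 0
  · apply hst 1 odd_one
    refine ⟨0, Fin.elim0, fun i => i.elim0, ?_⟩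
    rw [pow_one, Finset.univ_eq_empty, Finset.sum_empty, sub_zero]
    exact (mem_J_homog hF).mpr hf0
  · obtain ⟨m, hm, g1, g2, g3, he, e1, e2, e3⟩ := four hf0 hpos hdeg htw
    obtain ⟨d1, d2, d3⟩ := sq3_degree he
    have hm1 : 1 ≤ m := hm.pos
    have hdm : ((pull F) ^ m).natDegree ≤ 20 * m := by
      rw [natDegree_pow, mul_comm]
      exact Nat.mul_le_mul_right m hdeg
    have hev : Even (2 * m) := even_two_mul m
    have hl : ∀ g : ℝ[X], 2 * g.natDegree ≤ ((pull F) ^ m).natDegree →
        aeval w g = aeval z g → Lift (2 * m) g := by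
      intro g hg hg'
      apply full (by omega) (by omega)
      rw [hev.neg_one_pow, one_mul, hg']
    obtain ⟨G1, hG1, p1'⟩ := hl g1 d1 e1
    obtain ⟨G2, hG2, p2'⟩ := hl g2 d2 e2
    obtain ⟨G3, hG3, p3'⟩ := hl g3 d3 e3
    apply hst m hm
    refine ⟨3, ![G1, G2, G3], ?_, ?_⟩
    · intro i
      fin_cases i
      · exact hG1
      · exact hG2
      · exact hG3
    · rw [Fin.sum_univ_three]
      change F ^ m - (G1 ^ 2 + G2 ^ 2 + G3 ^ 2) ∈ J
      have hh : (F ^ m - (G1 ^ 2 + G2 ^ 2 + G3 ^ 2)).IsHomogeneous (4 * m) := by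
        refine (hF.pow m).sub (((?_ : (G1 ^ 2).IsHomogeneous (4 * m)).add ?_).add ?_)
        · have := hG1.pow 2
          rwa [show 2 * m * 2 = 4 * m by ring] at this
        · have := hG2.pow 2
          rwa [show 2 * m * 2 = 4 * m by ring] at this
        · have := hG3.pow 2
          rwa [show 2 * m * 2 = 4 * m by ring] at this
      rw [mem_J_homog hh]
      unfold pull at *
      rw [map_sub, map_add, map_add, map_pow, map_pow, map_pow, map_pow, p1', p2', p3', he,
        sub_self]

/-- **Main result**: there is an irreducible totally real projective variety `X ⊂ ℙ³` such that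
`2` is a stubborn degree of `X` but `4` is not. -/
theorem result : ∃ I : Ideal (MvPolynomial (Fin 4) ℝ),
    I.IsPrime ∧ IsTotallyReal I ∧ IsStubbornDegree I 1 ∧ ¬ IsStubbornDegree I 2 :=
  ⟨J, J_prime, J_totallyReal, stubborn_one, not_stubborn_two⟩

end Pool.Agent.Results.MP_9ca6a9_ag.DegreeGap
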